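import Pool.Agent.MP_7f2bb1_lc.Classify

/-!
Counting modulo `p` through the action of the tableau group.
-/

namespace Pool.Agent.MP_7f2bb1_lc

variable {p k : ℕ}

/-- The structures of the class on words. -/
abbrev Str (p k : ℕ) := {R : Pt p k → Pt p k → Pt p k → Prop // Good R}

instance strAction : MulAction (tab p k) (Str p k) where
  smul σ R := ⟨fun z x y => R.1 (σ.1⁻¹ z) (σ.1⁻¹ x) (σ.1⁻¹ y), R.2.comap (σ.1⁻¹).injective⟩
  one_smul R := by
    apply Subtype.ext
    rfl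
  mul_smul σ τ R := by
    apply Subtype.ext
    funext z x y
    change R.1 ((σ.1 * τ.1)⁻¹ z) ((σ.1 * τ.1)⁻¹ x) ((σ.1 * τ.1)⁻¹ y) =
      R.1 (τ.1⁻¹ (σ.1⁻¹ z)) (τ.1⁻¹ (σ.1⁻¹ x)) (τ.1⁻¹ (σ.1⁻¹ y))
    rw [mul_inv_rev]
    rfl

theorem mem_fixed_iff (R : Str p k) :
    R ∈ MulAction.fixedPoints (tab p k) (Str p k) ↔ Inv R.1 := by
  rw [MulAction.mem_fixedPoints]
  constructor
  · intro h σ hσ z x y
    have h1 := congrArg (fun S : Str p k => S.1 (σ z) (σ x) (σ y)) (h ⟨σ, hσ⟩)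
    change R.1 (σ⁻¹ (σ z)) (σ⁻¹ (σ x)) (σ⁻¹ (σ y)) = R.1 (σ z) (σ x) (σ y) at h1
    simp only [Equiv.Perm.inv_def, Equiv.symm_apply_apply] at h1
    rw [h1]
  · rintro h ⟨σ, hσ⟩
    apply Subtype.ext
    funext z x y
    exact propext (h σ⁻¹ ((tab p k).inv_mem hσ) z x y)

/-- The fixed structures correspond to the valid relations on levels. -/
noncomputable def fixedEquiv (p k : ℕ) [hp : Fact p.Prime] :
    MulAction.fixedPoints (tab p k) (Str p k) ≃ {Q : Fin k → Fin k → Prop // Valid Q} where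
  toFun R := ⟨toLev R.1.1, valid_toLev R.1.2 ((mem_fixed_iff R.1).mp R.2)⟩
  invFun Q := ⟨⟨ofLev Q.1, good_ofLev Q.2⟩, (mem_fixed_iff _).mpr inv_ofLev⟩
  left_inv R := by
    apply Subtype.ext
    apply Subtype.ext
    exact eq_ofLev R.1.2 ((mem_fixed_iff R.1).mp R.2)
  right_inv Q := by
    apply Subtype.ext
    exact toLev_ofLev

theorem card_modEq (p k : ℕ) [hp : Fact p.Prime] :
    Nat.card (Str p k) ≡ Nat.card {Q : Fin k → Fin k → Prop // Valid Q} [MOD p] := by
  classical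
  have : NeZero p := ⟨hp.out.ne_zero⟩
  have : Finite (Str p k) := inferInstance
  have h1 := (isPGroup_tab (p := p) (k := k)).card_modEq_card_fixedPoints (Str p k)
  rwa [Nat.card_congr (fixedEquiv p k)] at h1

/-- The number of structures of the class on `Fin n`. -/
noncomputable def cnt (n : ℕ) : ℕ := Nat.card {R : Fin n → Fin n → Fin n → Prop // Good R}

theorem good_equiv {M N : Type*} (e : M ≃ N) :
    Nat.card {R : M → M → M → Prop // Good R} = Nat.card {R : N → N → N → Prop // Good R} := by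
  apply Nat.card_congr
  refine ⟨fun R => ⟨fun z x y => R.1 (e.symm z) (e.symm x) (e.symm y), R.2.comap e.symm.injective⟩,
    fun R => ⟨fun z x y => R.1 (e z) (e x) (e y), R.2.comap e.injective⟩, fun R => ?_, fun R => ?_⟩
  · apply Subtype.ext
    funext z x y
    simp
  · apply Subtype.ext
    funext z x y
    simp

theorem cnt_modEq (p k : ℕ) [hp : Fact p.Prime] :
    cnt (p ^ k) ≡ Nat.card {Q : Fin k → Fin k → Prop // Valid Q} [MOD p] := by
  have : NeZero p := ⟨hp.out.ne_zero⟩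
  have e : Fin (p ^ k) ≃ Pt p k := by
    apply Fintype.equivOfCardEq
    simp [ZMod.card]
  unfold cnt
  rw [good_equiv e]
  exact card_modEq p k

end Pool.Agent.MP_7f2bb1_lc
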