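import Pool.Agent.MP_7f2bb1_lc.Group

/-!
The class of structures, and its members that are invariant under the tableau group.
-/

namespace Pool.Agent.MP_7f2bb1_lc

/-- `x` and `y` are incomparable from the point of view of `z`. -/
def Sm {M : Type*} (R : M → M → M → Prop) (z x y : M) : Prop := ¬ R z x y ∧ ¬ R z y x

/-- `z` is the unique apex of the triangle `x y z`: `y` is nearer to `x` than `z` is. -/
def Nr {M : Type*} (R : M → M → M → Prop) (x y z : M) : Prop := Sm R z x y ∧ ¬ Sm R x y z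

/-- The axioms of the class. -/
structure Good {M : Type*} (R : M → M → M → Prop) : Prop where
  irr : ∀ z x, ¬ R z x x
  irl : ∀ z x, ¬ R z z x
  irm : ∀ z x, ¬ R z x z
  trans : ∀ z x y w, R z x y → R z y w → R z x w
  ntrans : ∀ z x y w, z ≠ w → R z x y → R z x w ∨ R z w y
  apex : ∀ x y z, x ≠ y → y ≠ z → x ≠ z → Sm R x y z ∨ Sm R y x z ∨ Sm R z x y
  two : ∀ x y z, x ≠ y → y ≠ z → x ≠ z → Sm R x y z → Sm R y x z → Sm R z x y
  ntr : ∀ x y z w, Nr R x y z → Nr R x z w → Nr R x y w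
  avoid : ∀ x y z w, Nr R x y z → Nr R x z w → ¬ (R x z w ∧ R x w y)

theorem Sm.symm {M : Type*} {R : M → M → M → Prop} {z x y : M} (h : Sm R z x y) : Sm R z y x :=
  ⟨h.2, h.1⟩

namespace Good

variable {M : Type*} {R : M → M → M → Prop}

theorem asymm (h : Good R) {z x y : M} (h1 : R z x y) : ¬ R z y x :=
  fun h2 => h.irr z x (h.trans z x y x h1 h2)

theorem ne1 (h : Good R) {z x y : M} (h1 : R z x y) : z ≠ x := by
  rintro rfl; exact h.irl _ _ h1

theorem ne2 (h : Good R) {z x y : M} (h1 : R z x y) : z ≠ y := by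
  rintro rfl; exact h.irm _ _ h1

theorem ne3 (h : Good R) {z x y : M} (h1 : R z x y) : x ≠ y := by
  rintro rfl; exact h.irr _ _ h1

/-- incomparability is transitive -/
theorem sm_trans (h : Good R) {z x y w : M} (hy : z ≠ y) (h1 : Sm R z x y) (h2 : Sm R z y w) :
    Sm R z x w := by
  constructor
  · intro h3
    rcases h.ntrans z x w y hy h3 with h4 | h4
    · exact h1.1 h4
    · exact h2.1 h4
  · intro h3
    rcases h.ntrans z w x y hy h3 with h4 | h4
    · exact h2.2 h4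
    · exact h1.2 h4

theorem congr_left (h : Good R) {z x x' y : M} (hx' : z ≠ x') (h1 : Sm R z x x')
    (h2 : R z x y) : R z x' y := by
  rcases h.ntrans z x y x' hx' h2 with h4 | h4
  · exact absurd h4 h1.1
  · exact h4

theorem congr_right (h : Good R) {z x y y' : M} (hy' : z ≠ y') (h1 : Sm R z y y')
    (h2 : R z x y) : R z x y' := by
  rcases h.ntrans z x y y' hy' h2 with h4 | h4
  · exact h4
  · exact absurd h4 h1.2

theorem nr_ne (h : Good R) {x y z : M} (h1 : Nr R x y z) : x ≠ y ∧ x ≠ z ∧ y ≠ z := by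
  have h2 : R x y z ∨ R x z y := by
    by_contra hcon
    push Not at hcon
    exact h1.2 ⟨hcon.1, hcon.2⟩
  rcases h2 with h2 | h2
  · exact ⟨h.ne1 h2, h.ne2 h2, h.ne3 h2⟩
  · exact ⟨h.ne2 h2, h.ne1 h2, (h.ne3 h2).symm⟩

/-- symmetry of nearness -/
theorem nr_symm (h : Good R) {x y z : M} (h1 : Nr R x y z) : Nr R y x z := by
  obtain ⟨hxy, hxz, hyz⟩ := h.nr_ne h1
  refine ⟨h1.1.symm, fun h2 => h1.2 ?_⟩
  exact h.two y z x hyz hxz.symm hxy.symm h2.symm h1.1.symm

/-- trichotomy -/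
theorem nr_tri (h : Good R) {x y z : M} (hxy : x ≠ y) (hyz : y ≠ z) (hxz : x ≠ z) :
    Sm R x y z ∨ Nr R x y z ∨ Nr R x z y := by
  by_cases h1 : Sm R x y z
  · exact Or.inl h1
  · right
    rcases h.apex x y z hxy hyz hxz with h2 | h2 | h2
    · exact absurd h2 h1
    · exact Or.inr ⟨h2, fun h3 => h1 h3.symm⟩
    · exact Or.inl ⟨h2, h1⟩

theorem comap (h : Good R) {N : Type*} {f : N → M} (hf : Function.Injective f) :
    Good (fun z x y => R (f z) (f x) (f y)) where
  irr := fun _ _ => h.irr _ _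
  irl := fun _ _ => h.irl _ _
  irm := fun _ _ => h.irm _ _
  trans := fun _ _ _ _ h1 h2 => h.trans _ _ _ _ h1 h2
  ntrans := fun _ _ _ _ h1 h2 => h.ntrans _ _ _ _ (hf.ne h1) h2
  apex := fun _ _ _ h1 h2 h3 => h.apex _ _ _ (hf.ne h1) (hf.ne h2) (hf.ne h3)
  two := fun _ _ _ h1 h2 h3 h4 h5 => h.two _ _ _ (hf.ne h1) (hf.ne h2) (hf.ne h3) h4 h5
  ntr := fun _ _ _ _ h1 h2 => h.ntr _ _ _ _ h1 h2
  avoid := fun _ _ _ _ h1 h2 h3 => h.avoid _ _ _ _ h1 h2 h3

end Good

/-- The relations on the set of levels that describe the invariant structures. -/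
structure Valid {k : ℕ} (Q : Fin k → Fin k → Prop) : Prop where
  irr : ∀ i, ¬ Q i i
  trans : ∀ i j l, Q i j → Q j l → Q i l
  ntrans : ∀ i j l, Q i j → Q i l ∨ Q l j
  conv : ∀ i j l, i < j → j < l → (¬ Q i l ∧ ¬ Q l i) → (¬ Q i j ∧ ¬ Q j i)
  avoid : ∀ i j l, i < j → j < l → ¬ (Q j i ∧ Q i l)

variable {p k : ℕ}

/-- The structure on words given by a relation on levels. -/
def ofLev (Q : Fin k → Fin k → Prop) (z x y : Pt p k) : Prop :=
  ∃ i j, Lev z x i ∧ Lev z y j ∧ Q i j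

/-- The relation on levels given by a structure on words. -/
def toLev (R : Pt p k → Pt p k → Pt p k → Prop) (i j : Fin k) : Prop :=
  R 0 (Pi.single i 1) (Pi.single j 1)

/-- Invariance under the tableau group. -/
def Inv (R : Pt p k → Pt p k → Pt p k → Prop) : Prop :=
  ∀ σ ∈ tab p k, ∀ z x y, R (σ z) (σ x) (σ y) ↔ R z x y

section inv

variable {R : Pt p k → Pt p k → Pt p k → Prop}

/-- Points in one orbit of the stabiliser of `z` are incomparable from `z`. -/
theorem not_of_orbit (h : Good R) (hR : Inv R) [hp : NeZero p] {σ : Equiv.Perm (Pt p k)}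
    (hσ : σ ∈ tab p k) {z x : Pt p k} (hz : σ z = z) : ¬ R z x (σ x) := by
  intro h1
  have h2 : ∀ n : ℕ, R z x ((σ ^ (n + 1)) x) := by
    intro n
    induction n with
    | zero => simpa using h1
    | succ n ih =>
      have h3 : R z (σ x) ((σ ^ (n + 1 + 1)) x) := by
        have := (hR σ hσ z x ((σ ^ (n + 1)) x)).mpr ih
        rw [hz] at this
        rw [pow_succ' σ (n + 1)]
        exact this
      exact h.trans _ _ _ _ h1 h3
  have h3 := h2 (p ^ k - 1)
  have h4 : 0 < p ^ k := Nat.pow_pos (Nat.pos_of_ne_zero hp.out)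
  rw [Nat.sub_add_cancel h4, tab_pow_eq_one σ hσ] at h3
  exact h.irr _ _ h3

theorem sm_of_orbit (h : Good R) (hR : Inv R) [hp : NeZero p] {σ : Equiv.Perm (Pt p k)}
    (hσ : σ ∈ tab p k) {z x : Pt p k} (hz : σ z = z) : Sm R z x (σ x) := by
  refine ⟨not_of_orbit h hR hσ hz, ?_⟩
  have h1 : σ⁻¹ z = z := by
    rw [Equiv.Perm.inv_eq_iff_eq]; exact hz.symm
  have h2 := not_of_orbit h hR ((tab p k).inv_mem hσ) (z := z) (x := σ x) h1
  simpa using h2

/-- Points that leave `z` at the same place with the same digit. -/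
theorem sm_of_same (h : Good R) (hR : Inv R) [hp : NeZero p] {z x y : Pt p k} {i : Fin k}
    (hx : Lev z x i) (hy : Lev z y i) (hxy : x i = y i) : Sm R z x y := by
  have h1 : ctrl x (y - x) i z = z := by
    funext j
    change z j + (if i < j ∧ ∀ l ≤ i, z l = x l then (y - x) j else 0) = z j
    rw [if_neg]
    · simp
    · rintro ⟨_, h2⟩
      exact hx.2 (h2 i le_rfl)
  have h2 : ctrl x (y - x) i x = y := by
    funext j
    change x j + (if i < j ∧ ∀ l ≤ i, x l = x l then (y - x) j else 0) = y j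
    by_cases hj : i < j
    · rw [if_pos ⟨hj, fun _ _ => rfl⟩]
      simp
    · rw [if_neg (fun h => hj h.1)]
      rcases (not_lt.mp hj).lt_or_eq with h3 | h3
      · rw [add_zero, ← hx.1 j h3, hy.1 j h3]
      · rw [add_zero, h3, hxy]
  have h3 := sm_of_orbit h hR (ctrl_mem x (y - x) i) (z := z) (x := x) h1
  rwa [h2] at h3

theorem trl_iff (hR : Inv R) (v z x y : Pt p k) :
    R (z + v) (x + v) (y + v) ↔ R z x y := hR (trl v) (trl_mem v) z x y

theorem sm_trl_iff (hR : Inv R) (v z x y : Pt p k) :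
    Sm R (z + v) (x + v) (y + v) ↔ Sm R z x y := by
  unfold Sm
  rw [trl_iff hR, trl_iff hR]

theorem nr_trl_iff (hR : Inv R) (v z x y : Pt p k) :
    Nr R (z + v) (x + v) (y + v) ↔ Nr R z x y := by
  unfold Nr
  rw [sm_trl_iff hR, sm_trl_iff hR]

theorem single_ne {i : Fin k} {a b : ZMod p} (h : a ≠ b) :
    (Pi.single i a : Pt p k) ≠ Pi.single i b := fun e => h (Pi.single_injective i e)

/-- Siblings are pairwise incomparable. -/
theorem sib (h : Good R) (hR : Inv R) [hp : Fact p.Prime] (i : Fin k) (a b : ZMod p)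
    (ha : a ≠ 0) (hb : b ≠ 0) : Sm R 0 (Pi.single i a) (Pi.single i b) := by
  by_contra hcon
  -- the strict order on digits
  set n : ZMod p → ZMod p → Prop := fun a b => Nr R 0 (Pi.single i a) (Pi.single i b) with hn
  have hn0 : ∀ a b, n a b → a ≠ 0 ∧ b ≠ 0 ∧ a ≠ b := by
    intro a b hab
    obtain ⟨h1, h2, h3⟩ := h.nr_ne hab
    refine ⟨?_, ?_, ?_⟩
    · rintro rfl; exact h1 (by simp)
    · rintro rfl; exact h2 (by simp)
    · rintro rfl; exact h3 rfl
  have htri : ∀ a b, a ≠ 0 → b ≠ 0 → a ≠ b →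
      Sm R 0 (Pi.single i a) (Pi.single i b) ∨ n a b ∨ n b a := by
    intro a b ha hb hab
    apply h.nr_tri
    · intro e
      exact ha (by have := congrFun e i; simpa using this.symm)
    · exact single_ne hab
    · intro e
      exact hb (by have := congrFun e i; simpa using this.symm)
  have htrans : ∀ a b c, n a b → n b c → n a c := fun a b c h1 h2 => h.ntr _ _ _ _ h1 h2
  have hab : a ≠ b := by
    rintro rfl
    exact hcon ⟨h.irr _ _, h.irr _ _⟩
  have hex : ∃ u v, n u v := by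
    rcases htri a b ha hb hab with h1 | h1 | h1
    · exact absurd h1 hcon
    · exact ⟨_, _, h1⟩
    · exact ⟨_, _, h1⟩
  haveI : IsTrans (ZMod p) n := ⟨htrans⟩
  haveI : Std.Irrefl n := ⟨fun a haa => (hn0 a a haa).2.2 rfl⟩
  have hwf : WellFounded n := Finite.wellFounded_of_trans_of_irrefl n
  obtain ⟨u, ⟨v, huv⟩, hmin⟩ := hwf.has_min {u | ∃ v, n u v} hex
  have hmin' : ∀ c, ¬ n c u := fun c hc => hmin c ⟨u, hc⟩ hc
  have hu0 : u ≠ 0 := (hn0 _ _ huv).1
  have hstep : ∀ b, n u b → n u (b - u) := by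
    intro b hub
    have h1 : Nr R (Pi.single i u) 0 (Pi.single i b) := h.nr_symm hub
    have h2 : n (-u) (b - u) := by
      have h3 := (nr_trl_iff hR (-(Pi.single i u)) (Pi.single i u) 0 (Pi.single i b)).mpr h1
      have e1 : (Pi.single i u : Pt p k) + -(Pi.single i u) = 0 := by simp
      have e2 : (0 : Pt p k) + -(Pi.single i u) = Pi.single i (-u) := by
        rw [zero_add, Pi.single_neg]
      have e3 : (Pi.single i b : Pt p k) + -(Pi.single i u) = Pi.single i (b - u) := by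
        rw [Pi.single_sub, sub_eq_add_neg]
      rw [e1, e2, e3] at h3
      exact h3
    obtain ⟨hm0, hb0, _⟩ := hn0 _ _ h2
    by_cases he : u = b - u
    · rw [← he] at h2
      exact absurd h2 (hmin' _)
    rcases htri u (b - u) hu0 hb0 he with h3 | h3 | h3
    · by_cases hc : -u = u
      · rw [hc] at h2; exact h2
      rcases htri (-u) u hm0 hu0 hc with h4 | h4 | h4
      · exfalso
        apply h2.2
        refine h.sm_trans ?_ h4 h3
        intro e
        exact hu0 (by have := congrFun e i; simpa using this.symm)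
      · exact absurd h4 (hmin' _)
      · exact htrans _ _ _ h4 h2
    · exact h3
    · exact absurd h3 (hmin' _)
  have hall : ∀ t : ℕ, n u (v - t * u) := by
    intro t
    induction t with
    | zero => simpa using huv
    | succ t ih =>
      have := hstep _ ih
      have e : v - ((t + 1 : ℕ) : ZMod p) * u = v - t * u - u := by push_cast; ring
      rw [e]
      exact this
  have h1 := hall (v * u⁻¹).val
  rw [ZMod.natCast_zmod_val, mul_assoc, inv_mul_cancel₀ hu0, mul_one, sub_self] at h1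
  exact (hn0 _ _ h1).2.1 rfl

theorem lev_sub {x z : Pt p k} {i : Fin k} (h : Lev z x i) : Lev 0 (x - z) i := by
  refine ⟨fun j hj => ?_, fun e => h.2 ?_⟩
  · simp [h.1 j hj]
  · have : x i - z i = 0 := by simpa using e.symm
    exact (sub_eq_zero.mp this).symm

theorem lev_single {i : Fin k} {a : ZMod p} (ha : a ≠ 0) : Lev (0 : Pt p k) (Pi.single i a) i := by
  refine ⟨fun j hj => ?_, ?_⟩
  · rw [Pi.single_eq_of_ne hj.ne]; rfl
  · rw [Pi.single_eq_same]; exact ha.symm

/-- Points at the same level from `z` are incomparable from `z`. -/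
theorem sm_lev (h : Good R) (hR : Inv R) [hp : Fact p.Prime] {z x y : Pt p k} {i : Fin k}
    (hx : Lev z x i) (hy : Lev z y i) : Sm R z x y := by
  have : NeZero p := ⟨hp.out.ne_zero⟩
  have hx' := lev_sub hx
  have hy' := lev_sub hy
  have hxi : (x - z) i ≠ 0 := hx'.2.symm
  have hyi : (y - z) i ≠ 0 := hy'.2.symm
  have h1 : Sm R 0 (x - z) (Pi.single i ((x - z) i)) :=
    sm_of_same h hR hx' (lev_single hxi) (by simp)
  have h2 : Sm R 0 (Pi.single i ((y - z) i)) (y - z) :=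
    sm_of_same h hR (lev_single hyi) hy' (by simp)
  have h3 := sib h hR i _ _ hxi hyi
  have h4 : Sm R 0 (x - z) (y - z) :=
    h.sm_trans (lev_single hyi).ne (h.sm_trans (lev_single hxi).ne h1 h3) h2
  have h5 := (sm_trl_iff hR z 0 (x - z) (y - z)).mpr h4
  simpa using h5

theorem R_iff (h : Good R) (hR : Inv R) [hp : Fact p.Prime] {z x y : Pt p k} {i j : Fin k}
    (hx : Lev z x i) (hy : Lev z y j) : R z x y ↔ toLev R i j := by
  have h1ne : (1 : ZMod p) ≠ 0 := one_ne_zero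
  have hx' := lev_sub hx
  have hy' := lev_sub hy
  have e1 : R z x y ↔ R 0 (x - z) (y - z) := by
    have := trl_iff hR z 0 (x - z) (y - z)
    simpa using this
  rw [e1]
  have sx := sm_lev h hR hx' (lev_single (i := i) h1ne)
  have sy := sm_lev h hR hy' (lev_single (i := j) h1ne)
  constructor
  · intro h1
    exact h.congr_right (lev_single h1ne).ne sy (h.congr_left (lev_single h1ne).ne sx h1)
  · intro h1
    exact h.congr_right hy'.ne sy.symm (h.congr_left hx'.ne sx.symm h1)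

theorem eq_ofLev (h : Good R) (hR : Inv R) [hp : Fact p.Prime] : ofLev (toLev R) = R := by
  funext z x y
  apply propext
  constructor
  · rintro ⟨i, j, hi, hj, hq⟩
    exact (R_iff h hR hi hj).mpr hq
  · intro h1
    obtain ⟨i, hi⟩ := exists_lev (h.ne1 h1)
    obtain ⟨j, hj⟩ := exists_lev (h.ne2 h1)
    exact ⟨i, j, hi, hj, (R_iff h hR hi hj).mp h1⟩

theorem lev_single_single {i j : Fin k} (hij : i < j) [hp : Fact p.Prime] :
    Lev (Pi.single i (1 : ZMod p)) (Pi.single j 1 : Pt p k) i := by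
  refine ⟨fun l hl => ?_, ?_⟩
  · rw [Pi.single_eq_of_ne hl.ne, Pi.single_eq_of_ne (hl.trans hij).ne]
  · rw [Pi.single_eq_same, Pi.single_eq_of_ne hij.ne]
    exact one_ne_zero

theorem nr_single (h : Good R) (hR : Inv R) [hp : Fact p.Prime] {i j : Fin k} (hij : i < j)
    (hq : ¬ (¬ toLev R i j ∧ ¬ toLev R j i)) :
    Nr R 0 (Pi.single j 1) (Pi.single i 1) := by
  refine ⟨?_, fun h1 => hq ⟨h1.2, h1.1⟩⟩
  exact sm_lev h hR (lev_single one_ne_zero).symm (lev_single_single hij)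

theorem valid_toLev (h : Good R) (hR : Inv R) [hp : Fact p.Prime] : Valid (toLev R) where
  irr := fun i => h.irr _ _
  trans := fun i j l h1 h2 => h.trans _ _ _ _ h1 h2
  ntrans := fun i j l h1 => h.ntrans _ _ _ _ (lev_single one_ne_zero).ne h1
  conv := by
    intro i j l hij hjl hil
    by_contra hcon
    have h1 := nr_single h hR hij hcon
    have hjl' : ¬ (¬ toLev R j l ∧ ¬ toLev R l j) := by
      rintro ⟨h2, h3⟩
      apply hcon
      have s1 : Sm R 0 (Pi.single i 1) (Pi.single l 1) := hil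
      have s2 : Sm R 0 (Pi.single l 1) (Pi.single j 1) := ⟨h3, h2⟩
      exact h.sm_trans (lev_single one_ne_zero).ne s1 s2
    have h2 := nr_single h hR hjl hjl'
    have h3 := h.ntr _ _ _ _ h2 h1
    exact h3.2 ⟨hil.2, hil.1⟩
  avoid := by
    rintro i j l hij hjl ⟨h1, h2⟩
    have h3 : Nr R 0 (Pi.single j 1) (Pi.single i 1) :=
      nr_single h hR hij (fun hh => hh.2 h1)
    have h4 : Nr R 0 (Pi.single l 1) (Pi.single j 1) :=
      nr_single h hR hjl (fun hh => hh.1 (h.trans _ _ _ _ h1 h2))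
    exact h.avoid _ _ _ _ h4 h3 ⟨h1, h2⟩

end inv

section ofLev

variable {Q : Fin k → Fin k → Prop}

theorem ofLev_iff {z x y : Pt p k} {i j : Fin k} (hx : Lev z x i) (hy : Lev z y j) :
    ofLev Q z x y ↔ Q i j := by
  constructor
  · rintro ⟨i', j', hi, hj, hq⟩
    rw [hi.unique hx, hj.unique hy] at hq
    exact hq
  · intro h
    exact ⟨i, j, hx, hy, h⟩

theorem ofLev_ne1 {z x y : Pt p k} (h : ofLev Q z x y) : z ≠ x := by
  obtain ⟨i, j, hx, hy, _⟩ := h
  exact hx.ne

theorem ofLev_ne2 {z x y : Pt p k} (h : ofLev Q z x y) : z ≠ y := by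
  obtain ⟨i, j, hx, hy, _⟩ := h
  exact hy.ne

theorem inv_ofLev : Inv (ofLev Q : Pt p k → Pt p k → Pt p k → Prop) := by
  intro σ hσ z x y
  unfold ofLev
  simp only [lev_map_iff hσ]

theorem toLev_ofLev [hp : Fact p.Prime] :
    toLev (ofLev Q : Pt p k → Pt p k → Pt p k → Prop) = Q := by
  funext i j
  apply propext
  exact ofLev_iff (lev_single one_ne_zero) (lev_single one_ne_zero)

theorem sm_ofLev_iff {z x y : Pt p k} {i j : Fin k} (hx : Lev z x i) (hy : Lev z y j) :
    Sm (ofLev Q) z x y ↔ ¬ Q i j ∧ ¬ Q j i := by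
  unfold Sm
  rw [ofLev_iff hx hy, ofLev_iff hy hx]

/-- nearness in the structure given by `Q` -/
theorem nr_ofLev (hQ : Valid Q) {x y z : Pt p k} {i j : Fin k} (hy : Lev x y i)
    (hz : Lev x z j) : Nr (ofLev Q) x y z ↔ j < i ∧ ¬ (¬ Q i j ∧ ¬ Q j i) := by
  unfold Nr
  rw [sm_ofLev_iff hy hz]
  rcases lt_trichotomy i j with hij | hij | hij
  · -- `y` is far
    have h1 : Lev z y i := hz.near hy hij
    have h2 : Lev z x j := hz.symm
    rw [sm_ofLev_iff h2 h1]
    constructor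
    · rintro ⟨⟨h3, h4⟩, h5⟩
      exact absurd ⟨h4, h3⟩ h5
    · rintro ⟨h3, _⟩
      exact absurd h3 (not_lt.mpr hij.le)
  · subst hij
    constructor
    · rintro ⟨_, h4⟩
      exact absurd ⟨hQ.irr i, hQ.irr i⟩ h4
    · rintro ⟨h3, _⟩
      exact absurd h3 (lt_irrefl _)
  · have h1 : Lev z y j := (hy.near hz hij).symm
    rw [sm_ofLev_iff hz.symm h1]
    constructor
    · rintro ⟨_, h5⟩
      exact ⟨hij, h5⟩
    · rintro ⟨_, h5⟩
      exact ⟨⟨hQ.irr j, hQ.irr j⟩, h5⟩

theorem nr_ofLev_ne {x y z : Pt p k} (h : Nr (ofLev Q) x y z) : x ≠ y ∧ x ≠ z := by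
  by_contra hcon
  apply h.2
  refine ⟨fun h1 => hcon ⟨ofLev_ne1 h1, ofLev_ne2 h1⟩, fun h1 => hcon ⟨ofLev_ne2 h1, ofLev_ne1 h1⟩⟩

theorem good_ofLev (hQ : Valid Q) : Good (ofLev Q : Pt p k → Pt p k → Pt p k → Prop) where
  irr := by
    rintro z x ⟨i, j, hi, hj, hq⟩
    rw [hi.unique hj] at hq
    exact hQ.irr _ hq
  irl := fun z x h => ofLev_ne1 h rfl
  irm := fun z x h => ofLev_ne2 h rfl
  trans := by
    rintro z x y w ⟨i, j, hi, hj, hq⟩ ⟨j', l, hj', hl, hq'⟩
    rw [hj'.unique hj] at hq'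
    exact ⟨i, l, hi, hl, hQ.trans _ _ _ hq hq'⟩
  ntrans := by
    rintro z x y w hzw ⟨i, j, hi, hj, hq⟩
    obtain ⟨l, hl⟩ := exists_lev hzw
    rcases hQ.ntrans i j l hq with h1 | h1
    · exact Or.inl ⟨i, l, hi, hl, h1⟩
    · exact Or.inr ⟨l, j, hl, hj, h1⟩
  apex := by
    intro x y z hxy hyz hxz
    obtain ⟨a, ha⟩ := exists_lev hxy
    obtain ⟨b, hb⟩ := exists_lev hxz
    obtain ⟨c, hc⟩ := exists_lev hyz
    rcases lt_trichotomy a b with hab | hab | hab
    · -- `y` is far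
      right; left
      have h1 : Lev z y a := hb.near ha hab
      rw [sm_ofLev_iff ha.symm h1.symm]
      exact ⟨hQ.irr _, hQ.irr _⟩
    · left
      subst hab
      rw [sm_ofLev_iff ha hb]
      exact ⟨hQ.irr _, hQ.irr _⟩
    · right; right
      have h1 : Lev y z b := ha.near hb hab
      rw [sm_ofLev_iff hb.symm h1.symm]
      exact ⟨hQ.irr _, hQ.irr _⟩
  two := by
    intro x y z hxy hyz hxz h1 h2
    obtain ⟨a, ha⟩ := exists_lev hxy
    obtain ⟨b, hb⟩ := exists_lev hxz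
    obtain ⟨c, hc⟩ := exists_lev hyz
    rw [sm_ofLev_iff ha hb] at h1
    rw [sm_ofLev_iff ha.symm hc] at h2
    rw [sm_ofLev_iff hb.symm hc.symm]
    constructor
    · intro h3
      rcases hQ.ntrans _ _ a h3 with h4 | h4
      · exact h1.2 h4
      · exact h2.1 h4
    · intro h3
      rcases hQ.ntrans _ _ a h3 with h4 | h4
      · exact h2.2 h4
      · exact h1.1 h4
  ntr := by
    intro x y z w h1 h2
    obtain ⟨hxy, hxz⟩ := nr_ofLev_ne h1
    obtain ⟨_, hxw⟩ := nr_ofLev_ne h2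
    obtain ⟨a, ha⟩ := exists_lev hxy
    obtain ⟨b, hb⟩ := exists_lev hxz
    obtain ⟨c, hc⟩ := exists_lev hxw
    rw [nr_ofLev hQ ha hb] at h1
    rw [nr_ofLev hQ hb hc] at h2
    rw [nr_ofLev hQ ha hc]
    refine ⟨h2.1.trans h1.1, fun h3 => h2.2 ?_⟩
    have := hQ.conv c b a h2.1 h1.1 ⟨h3.2, h3.1⟩
    exact ⟨this.2, this.1⟩
  avoid := by
    intro x y z w h1 h2 h3
    obtain ⟨hxy, hxz⟩ := nr_ofLev_ne h1
    obtain ⟨_, hxw⟩ := nr_ofLev_ne h2
    obtain ⟨a, ha⟩ := exists_lev hxy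
    obtain ⟨b, hb⟩ := exists_lev hxz
    obtain ⟨c, hc⟩ := exists_lev hxw
    rw [nr_ofLev hQ ha hb] at h1
    rw [nr_ofLev hQ hb hc] at h2
    rw [ofLev_iff hb hc, ofLev_iff hc ha] at h3
    exact hQ.avoid c b a h2.1 h1.1 h3

end ofLev

end Pool.Agent.MP_7f2bb1_lc
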