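import Pool.Agent.MP_7f2bb1_lc.Classify

/-!
The number of valid relations on levels: a recursion.
-/

namespace Pool.Agent.MP_7f2bb1_lc

/-- Valid relations on `{0, ..., k-1}`, as relations on `ℕ`. -/
structure ValidN (k : ℕ) (Q : ℕ → ℕ → Prop) : Prop where
  supp : ∀ i j, Q i j → i < k ∧ j < k
  irr : ∀ i, ¬ Q i i
  trans : ∀ i j l, Q i j → Q j l → Q i l
  ntrans : ∀ i j l, l < k → Q i j → Q i l ∨ Q l j
  conv : ∀ i j l, i < j → j < l → l < k → ¬ Q i l → ¬ Q l i → ¬ Q i j ∧ ¬ Q j i
  avoid : ∀ i j l, i < j → j < l → Q j i → Q i l → False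

/-- The type of valid relations on `{0, ..., k-1}`. -/
abbrev VN (k : ℕ) := {Q : ℕ → ℕ → Prop // ValidN k Q}

def vnEquiv (k : ℕ) : {Q : Fin k → Fin k → Prop // Valid Q} ≃ VN k where
  toFun Q := ⟨fun i j => ∃ (hi : i < k) (hj : j < k), Q.1 ⟨i, hi⟩ ⟨j, hj⟩, {
    supp := by
      rintro i j ⟨hi, hj, _⟩
      exact ⟨hi, hj⟩
    irr := by
      rintro i ⟨hi, _, h⟩
      exact Q.2.irr _ h
    trans := by
      rintro i j l ⟨hi, hj, h⟩ ⟨_, hl, h'⟩
      exact ⟨hi, hl, Q.2.trans _ _ _ h h'⟩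
    ntrans := by
      rintro i j l hl ⟨hi, hj, h⟩
      rcases Q.2.ntrans _ _ ⟨l, hl⟩ h with h' | h'
      · exact Or.inl ⟨hi, hl, h'⟩
      · exact Or.inr ⟨hl, hj, h'⟩
    conv := by
      intro i j l hij hjl hl h1 h2
      have hj := hjl.trans hl
      have hi := hij.trans hj
      have := Q.2.conv ⟨i, hi⟩ ⟨j, hj⟩ ⟨l, hl⟩ hij hjl
        ⟨fun h => h1 ⟨hi, hl, h⟩, fun h => h2 ⟨hl, hi, h⟩⟩
      exact ⟨fun ⟨_, _, h⟩ => this.1 h, fun ⟨_, _, h⟩ => this.2 h⟩
    avoid := by
      rintro i j l hij hjl ⟨hj, hi, h⟩ ⟨_, hl, h'⟩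
      exact Q.2.avoid ⟨i, hi⟩ ⟨j, hj⟩ ⟨l, hl⟩ hij hjl ⟨h, h'⟩ }⟩
  invFun Q := ⟨fun i j => Q.1 i j, {
    irr := fun i => Q.2.irr i
    trans := fun i j l h h' => Q.2.trans _ _ _ h h'
    ntrans := fun i j l h => Q.2.ntrans _ _ _ l.2 h
    conv := fun i j l hij hjl h => Q.2.conv _ _ _ hij hjl l.2 h.1 h.2
    avoid := fun i j l hij hjl h => Q.2.avoid _ _ _ hij hjl h.1 h.2 }⟩
  left_inv Q := by
    apply Subtype.ext
    funext i j
    simp
  right_inv Q := by
    apply Subtype.ext
    funext i j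
    apply propext
    constructor
    · rintro ⟨_, _, h⟩
      exact h
    · intro h
      exact ⟨(Q.2.supp _ _ h).1, (Q.2.supp _ _ h).2, h⟩

instance (k : ℕ) : Finite (VN k) := Finite.of_equiv _ (vnEquiv k)

/-- Composition: a first class `{0, ..., c}`, then a block of size `d` that comes after it and a
block of size `e` that comes before it. -/
def comb (c d e : ℕ) (D E : ℕ → ℕ → Prop) (i j : ℕ) : Prop :=
  (i ≤ c ∧ c < j ∧ j ≤ c + d) ∨
  (c + d < i ∧ i ≤ c + d + e ∧ j ≤ c + d) ∨
  (c < i ∧ c < j ∧ D (i - (c + 1)) (j - (c + 1))) ∨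
  (c + d < i ∧ c + d < j ∧ E (i - (c + d + 1)) (j - (c + d + 1)))

section comb

variable {c d e : ℕ} {D E : ℕ → ℕ → Prop}

theorem comb_elim (hD : ValidN d D) (hE : ValidN e E) {i j : ℕ} (h : comb c d e D E i j) :
    (i ≤ c ∧ c < j ∧ j ≤ c + d) ∨
    (c + d < i ∧ i ≤ c + d + e ∧ j ≤ c + d) ∨
    (c < i ∧ i ≤ c + d ∧ c < j ∧ j ≤ c + d ∧ D (i - (c + 1)) (j - (c + 1))) ∨
    (c + d < i ∧ i ≤ c + d + e ∧ c + d < j ∧ j ≤ c + d + e ∧
      E (i - (c + d + 1)) (j - (c + d + 1))) := by
  rcases h with h | h | ⟨h1, h2, h3⟩ | ⟨h1, h2, h3⟩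
  · exact Or.inl h
  · exact Or.inr (Or.inl h)
  · have := hD.supp _ _ h3
    exact Or.inr (Or.inr (Or.inl ⟨h1, by omega, h2, by omega, h3⟩))
  · have := hE.supp _ _ h3
    exact Or.inr (Or.inr (Or.inr ⟨h1, by omega, h2, by omega, h3⟩))

theorem comb_KD {i j : ℕ} (hi : i ≤ c) (hj : c < j) (hj' : j ≤ c + d) : comb c d e D E i j :=
  Or.inl ⟨hi, hj, hj'⟩

theorem comb_E {i j : ℕ} (hi : c + d < i) (hi' : i ≤ c + d + e) (hj : j ≤ c + d) :
    comb c d e D E i j := Or.inr (Or.inl ⟨hi, hi', hj⟩)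

theorem comb_DD {i j : ℕ} (hi : c < i) (hj : c < j) (h : D (i - (c + 1)) (j - (c + 1))) :
    comb c d e D E i j := Or.inr (Or.inr (Or.inl ⟨hi, hj, h⟩))

theorem comb_EE {i j : ℕ} (hi : c + d < i) (hj : c + d < j)
    (h : E (i - (c + d + 1)) (j - (c + d + 1))) :
    comb c d e D E i j := Or.inr (Or.inr (Or.inr ⟨hi, hj, h⟩))

theorem comb_DD_iff (hD : ValidN d D) (hE : ValidN e E) {i j : ℕ} (hi : c < i) (hi' : i ≤ c + d)
    (hj : c < j) : comb c d e D E i j ↔ D (i - (c + 1)) (j - (c + 1)) := by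
  constructor
  · intro h
    rcases comb_elim hD hE h with h | h | h | h
    · omega
    · omega
    · exact h.2.2.2.2
    · omega
  · exact comb_DD hi hj

theorem comb_EE_iff (hD : ValidN d D) (hE : ValidN e E) {i j : ℕ} (hi : c + d < i)
    (hj : c + d < j) : comb c d e D E i j ↔ E (i - (c + d + 1)) (j - (c + d + 1)) := by
  constructor
  · intro h
    rcases comb_elim hD hE h with h | h | h | h
    · omega
    · omega
    · omega
    · exact h.2.2.2.2
  · exact comb_EE hi hj

theorem comb_valid (hD : ValidN d D) (hE : ValidN e E) :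
    ValidN (c + d + e + 1) (comb c d e D E) where
  supp := by
    intro i j h
    rcases comb_elim hD hE h with h | h | h | h <;> omega
  irr := by
    intro i h
    rcases comb_elim hD hE h with h | h | h | h
    · omega
    · omega
    · exact hD.irr _ h.2.2.2.2
    · exact hE.irr _ h.2.2.2.2
  trans := by
    intro i j l h h'
    rcases comb_elim hD hE h with h | h | h | h <;>
    rcases comb_elim hD hE h' with h' | h' | h' | h' <;>
    first
    | (exfalso; omega)
    | exact comb_KD (by omega) (by omega) (by omega)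
    | exact comb_E (by omega) (by omega) (by omega)
    | exact comb_DD (by omega) (by omega) (hD.trans _ _ _ h.2.2.2.2 h'.2.2.2.2)
    | exact comb_EE (by omega) (by omega) (hE.trans _ _ _ h.2.2.2.2 h'.2.2.2.2)
  ntrans := by
    intro i j l hl h
    rcases comb_elim hD hE h with h | h | h | h
    · by_cases h1 : l ≤ c
      · exact Or.inr (comb_KD (by omega) (by omega) (by omega))
      by_cases h2 : l ≤ c + d
      · exact Or.inl (comb_KD (by omega) (by omega) (by omega))
      · exact Or.inr (comb_E (by omega) (by omega) (by omega))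
    · by_cases h2 : l ≤ c + d
      · exact Or.inl (comb_E (by omega) (by omega) (by omega))
      · exact Or.inr (comb_E (by omega) (by omega) (by omega))
    · by_cases h1 : l ≤ c
      · exact Or.inr (comb_KD (by omega) (by omega) (by omega))
      by_cases h2 : l ≤ c + d
      · rcases hD.ntrans _ _ (l - (c + 1)) (by omega) h.2.2.2.2 with h3 | h3
        · exact Or.inl (comb_DD (by omega) (by omega) h3)
        · exact Or.inr (comb_DD (by omega) (by omega) h3)
      · exact Or.inr (comb_E (by omega) (by omega) (by omega))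
    · by_cases h2 : l ≤ c + d
      · exact Or.inl (comb_E (by omega) (by omega) (by omega))
      · rcases hE.ntrans _ _ (l - (c + d + 1)) (by omega) h.2.2.2.2 with h3 | h3
        · exact Or.inl (comb_EE (by omega) (by omega) h3)
        · exact Or.inr (comb_EE (by omega) (by omega) h3)
  conv := by
    intro i j l hij hjl hl h1 h2
    by_cases hi : i ≤ c
    · have hlc : l ≤ c := by
        by_contra hcon
        by_cases h3 : l ≤ c + d
        · exact h1 (comb_KD hi (by omega) h3)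
        · exact h2 (comb_E (by omega) (by omega) (by omega))
      constructor
      · intro h
        rcases comb_elim hD hE h with h | h | h | h <;> omega
      · intro h
        rcases comb_elim hD hE h with h | h | h | h <;> omega
    by_cases hi' : i ≤ c + d
    · have hlc : l ≤ c + d := by
        by_contra hcon
        exact h2 (comb_E (by omega) (by omega) (by omega))
      rw [comb_DD_iff hD hE (by omega) (by omega) (by omega)] at h1 h2
      rw [comb_DD_iff hD hE (by omega) (by omega) (by omega),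
        comb_DD_iff hD hE (by omega) (by omega) (by omega)]
      exact hD.conv _ _ _ (by omega) (by omega) (by omega) h1 h2
    · rw [comb_EE_iff hD hE (by omega) (by omega)] at h1 h2
      rw [comb_EE_iff hD hE (by omega) (by omega), comb_EE_iff hD hE (by omega) (by omega)]
      exact hE.conv _ _ _ (by omega) (by omega) (by omega) h1 h2
  avoid := by
    intro i j l hij hjl h h'
    rcases comb_elim hD hE h with h | h | h | h <;>
    rcases comb_elim hD hE h' with h' | h' | h' | h' <;>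
    first
    | omega
    | exact hD.avoid _ _ _ (by omega) (by omega) h.2.2.2.2 h'.2.2.2.2
    | exact hE.avoid _ _ _ (by omega) (by omega) h.2.2.2.2 h'.2.2.2.2

end comb

/-- A downward closed property holding at `0` and bounded by `k` is an initial segment. -/
theorem exists_bound {P : ℕ → Prop} {k : ℕ} (h0 : P 0) (hk : ∀ i, P i → i ≤ k)
    (hd : ∀ i j, j < i → P i → P j) : ∃ c ≤ k, ∀ i, P i ↔ i ≤ c := by
  classical
  refine ⟨Nat.findGreatest P k, Nat.findGreatest_le k, fun i => ⟨fun h => ?_, fun h => ?_⟩⟩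
  · exact Nat.le_findGreatest (hk i h) h
  · have h1 : P (Nat.findGreatest P k) := Nat.findGreatest_spec (Nat.zero_le k) h0
    rcases h.lt_or_eq with h2 | h2
    · exact hd _ _ h2 h1
    · rw [h2]; exact h1

section decomp

variable {k : ℕ} {Q : ℕ → ℕ → Prop}

theorem ValidN.asymm (h : ValidN k Q) {i j : ℕ} (h1 : Q i j) : ¬ Q j i :=
  fun h2 => h.irr i (h.trans _ _ _ h1 h2)

/-- The restriction of a relation to a block. -/
def block (Q : ℕ → ℕ → Prop) (s n : ℕ) (i j : ℕ) : Prop := i < n ∧ j < n ∧ Q (i + s) (j + s)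

theorem block_valid (h : ValidN k Q) {s n : ℕ} (hs : s + n ≤ k) : ValidN n (block Q s n) where
  supp := fun i j hij => ⟨hij.1, hij.2.1⟩
  irr := fun i hi => h.irr _ hi.2.2
  trans := fun i j l h1 h2 => ⟨h1.1, h2.2.1, h.trans _ _ _ h1.2.2 h2.2.2⟩
  ntrans := by
    rintro i j l hl ⟨hi, hj, h1⟩
    rcases h.ntrans _ _ (l + s) (by omega) h1 with h2 | h2
    · exact Or.inl ⟨hi, hl, h2⟩
    · exact Or.inr ⟨hl, hj, h2⟩
  conv := by
    intro i j l hij hjl hl h1 h2
    have := h.conv (i + s) (j + s) (l + s) (by omega) (by omega) (by omega)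
      (fun h3 => h1 ⟨by omega, by omega, h3⟩) (fun h3 => h2 ⟨by omega, by omega, h3⟩)
    exact ⟨fun h3 => this.1 h3.2.2, fun h3 => this.2 h3.2.2⟩
  avoid := by
    rintro i j l hij hjl ⟨_, _, h1⟩ ⟨_, _, h2⟩
    exact h.avoid (i + s) (j + s) (l + s) (by omega) (by omega) h1 h2

theorem exists_decomp (h : ValidN (k + 1) Q) : ∃ c d e : ℕ, c + d + e = k ∧
    comb c d e (block Q (c + 1) d) (block Q (c + d + 1) e) = Q := by
  -- the class of `0`
  obtain ⟨c, hck, hc⟩ := exists_bound (P := fun i => i ≤ k ∧ ¬ Q 0 i ∧ ¬ Q i 0) (k := k)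
    ⟨Nat.zero_le _, h.irr 0, h.irr 0⟩ (fun i hi => hi.1) (by
      rintro i j hji ⟨hi, h1, h2⟩
      refine ⟨by omega, ?_⟩
      rcases Nat.eq_zero_or_pos j with rfl | hj
      · exact ⟨h.irr 0, h.irr 0⟩
      · exact h.conv 0 j i hj hji (by omega) h1 h2)
  obtain ⟨m, hmk, hm⟩ := exists_bound (P := fun i => i ≤ k ∧ ¬ Q i 0) (k := k)
    ⟨Nat.zero_le _, h.irr 0⟩ (fun i hi => hi.1) (by
      rintro i j hji ⟨hi, h2⟩
      refine ⟨by omega, ?_⟩
      rcases Nat.eq_zero_or_pos j with rfl | hj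
      · exact h.irr 0
      intro h3
      by_cases h1 : Q 0 i
      · exact h.avoid 0 j i hj hji h3 h1
      · exact (h.conv 0 j i hj hji (by omega) h1 h2).2 h3)
  have hcm : c ≤ m := (hm c).mp ⟨hck, ((hc c).mpr le_rfl).2.2⟩
  -- position of an index relative to `0`
  have hK : ∀ i, i ≤ c → ¬ Q 0 i ∧ ¬ Q i 0 := fun i hi => ((hc i).mpr hi).2
  have hDD : ∀ i, c < i → i ≤ m → Q 0 i := by
    intro i hi hi'
    by_contra hcon
    have h1 := (hm i).mpr hi'
    have := (hc i).mp ⟨h1.1, hcon, h1.2⟩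
    omega
  have hEE : ∀ i, m < i → i ≤ k → Q i 0 := by
    intro i hi hi'
    by_contra hcon
    have := (hm i).mp ⟨hi', hcon⟩
    omega
  have hsame : ∀ i, i ≤ c → ∀ j, Q 0 j → Q i j := by
    intro i hi j h1
    rcases h.ntrans 0 j i (by omega) h1 with h2 | h2
    · exact absurd h2 (hK i hi).1
    · exact h2
  have hsame' : ∀ i, i ≤ c → ∀ j, Q j 0 → Q j i := by
    intro i hi j h1
    rcases h.ntrans j 0 i (by omega) h1 with h2 | h2
    · exact h2
    · exact absurd h2 (hK i hi).2
  have hsame2 : ∀ i, i ≤ c → ∀ j, j ≤ c → ¬ Q i j := by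
    intro i hi j hj h1
    rcases h.ntrans i j 0 (by omega) h1 with h2 | h2
    · exact (hK i hi).2 h2
    · exact (hK j hj).1 h2
  have hV1 : ValidN (m - c) (block Q (c + 1) (m - c)) := block_valid h (by omega)
  have hV2 : ValidN (k - m) (block Q (c + (m - c) + 1) (k - m)) := block_valid h (by omega)
  refine ⟨c, m - c, k - m, by omega, ?_⟩
  funext i j
  apply propext
  constructor
  · intro hQ
    rcases comb_elim hV1 hV2 hQ with h1 | h1 | h1 | h1
    · exact hsame i h1.1 j (hDD j h1.2.1 (by omega))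
    · have hi := hEE i (by omega) (by omega)
      by_cases hj : j ≤ c
      · exact hsame' j hj i hi
      · exact h.trans _ _ _ hi (hDD j (by omega) (by omega))
    · have h2 := h1.2.2.2.2.2.2
      rwa [Nat.sub_add_cancel (by omega), Nat.sub_add_cancel (by omega)] at h2
    · have h2 := h1.2.2.2.2.2.2
      rwa [Nat.sub_add_cancel (by omega), Nat.sub_add_cancel (by omega)] at h2
  · intro hQ
    have hs := h.supp _ _ hQ
    by_cases hi : i ≤ c
    · by_cases hj : j ≤ c
      · exact absurd hQ (hsame2 i hi j hj)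
      by_cases hj' : j ≤ m
      · exact comb_KD hi (by omega) (by omega)
      · exact absurd hQ (h.asymm (hsame' i hi j (hEE j (by omega) (by omega))))
    by_cases hi' : i ≤ m
    · have h0i := hDD i (by omega) hi'
      by_cases hj : j ≤ c
      · exact absurd hQ (h.asymm (hsame j hj i h0i))
      by_cases hj' : j ≤ m
      · apply comb_DD (by omega) (by omega)
        refine ⟨by omega, by omega, ?_⟩
        rwa [Nat.sub_add_cancel (by omega), Nat.sub_add_cancel (by omega)]
      · exact absurd hQ (h.asymm (h.trans _ _ _ (hEE j (by omega) (by omega)) h0i))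
    · by_cases hj' : j ≤ m
      · exact comb_E (by omega) (by omega) (by omega)
      · apply comb_EE (by omega) (by omega)
        refine ⟨by omega, by omega, ?_⟩
        rwa [Nat.sub_add_cancel (by omega), Nat.sub_add_cancel (by omega)]

end decomp

section inj

variable {c d e : ℕ} {D E : ℕ → ℕ → Prop}

theorem comb_c (hD : ValidN d D) (hE : ValidN e E) (i : ℕ) :
    (i ≤ c + d + e ∧ ¬ comb c d e D E 0 i ∧ ¬ comb c d e D E i 0) ↔ i ≤ c := by
  constructor
  · rintro ⟨h1, h2, h3⟩
    by_contra hcon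
    by_cases h4 : i ≤ c + d
    · exact h2 (comb_KD (by omega) (by omega) (by omega))
    · exact h3 (comb_E (by omega) (by omega) (by omega))
  · intro h1
    refine ⟨by omega, fun h => ?_, fun h => ?_⟩
    · rcases comb_elim hD hE h with h | h | h | h <;> omega
    · rcases comb_elim hD hE h with h | h | h | h <;> omega

theorem comb_m (hD : ValidN d D) (hE : ValidN e E) (i : ℕ) :
    (i ≤ c + d + e ∧ ¬ comb c d e D E i 0) ↔ i ≤ c + d := by
  constructor
  · rintro ⟨h1, h3⟩
    by_contra hcon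
    exact h3 (comb_E (by omega) (by omega) (by omega))
  · intro h1
    refine ⟨by omega, fun h => ?_⟩
    rcases comb_elim hD hE h with h | h | h | h <;> omega

theorem comb_D (hD : ValidN d D) (hE : ValidN e E) (i j : ℕ) :
    D i j ↔ i < d ∧ comb c d e D E (i + (c + 1)) (j + (c + 1)) := by
  constructor
  · intro h
    have := hD.supp _ _ h
    refine ⟨this.1, comb_DD (by omega) (by omega) ?_⟩
    simpa using h
  · rintro ⟨h1, h2⟩
    rw [comb_DD_iff hD hE (by omega) (by omega) (by omega)] at h2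
    simpa using h2

theorem comb_Er (hD : ValidN d D) (hE : ValidN e E) (i j : ℕ) :
    E i j ↔ comb c d e D E (i + (c + d + 1)) (j + (c + d + 1)) := by
  rw [comb_EE_iff hD hE (by omega) (by omega)]
  simp

end inj

theorem comb_inj {c d e c' d' e' : ℕ} {D E D' E' : ℕ → ℕ → Prop} (hD : ValidN d D)
    (hE : ValidN e E) (hD' : ValidN d' D') (hE' : ValidN e' E')
    (hs : c + d + e = c' + d' + e') (h : comb c d e D E = comb c' d' e' D' E') :
    c = c' ∧ d = d' ∧ e = e' ∧ D = D' ∧ E = E' := by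
  have h1 : c = c' := by
    have h2 : ∀ i, i ≤ c ↔ i ≤ c' := by
      intro i
      rw [← comb_c hD hE (c := c), ← comb_c hD' hE' (c := c'), hs, h]
    exact le_antisymm ((h2 c).mp le_rfl) ((h2 c').mpr le_rfl)
  subst h1
  have h1 : d = d' := by
    have h2 : ∀ i, i ≤ c + d ↔ i ≤ c + d' := by
      intro i
      rw [← comb_m hD hE (c := c), ← comb_m hD' hE' (c := c), hs, h]
    have h3 := (h2 (c + d)).mp le_rfl
    have h4 := (h2 (c + d')).mpr le_rfl
    omega
  subst h1
  have h1 : e = e' := by omega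
  subst h1
  refine ⟨rfl, rfl, rfl, ?_, ?_⟩
  · funext i j
    apply propext
    rw [comb_D hD hE (c := c), comb_D hD' hE' (c := c), h]
  · funext i j
    apply propext
    rw [comb_Er hD hE (c := c), comb_Er hD' hE' (c := c), h]

open Finset

/-- The type of pieces of a valid relation on `k + 1` levels. -/
abbrev Pieces (k : ℕ) :=
  Σ x : antidiagonal k, Σ y : antidiagonal x.1.2, VN y.1.1 × VN y.1.2

def glue (k : ℕ) (t : Pieces k) : VN (k + 1) :=
  ⟨comb t.1.1.1 t.2.1.1.1 t.2.1.1.2 t.2.2.1.1 t.2.2.2.1, by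
    have h := comb_valid (c := t.1.1.1) t.2.2.1.2 t.2.2.2.2
    have h1 := HasAntidiagonal.mem_antidiagonal.mp t.1.2
    have h2 := HasAntidiagonal.mem_antidiagonal.mp t.2.1.2
    have h3 : t.1.1.1 + t.2.1.1.1 + t.2.1.1.2 + 1 = k + 1 := by omega
    rwa [h3] at h⟩

theorem glue_bijective (k : ℕ) : Function.Bijective (glue k) := by
  constructor
  · rintro ⟨⟨⟨c, r⟩, hx⟩, ⟨⟨⟨d, e⟩, hy⟩, ⟨D, E⟩⟩⟩ ⟨⟨⟨c', r'⟩, hx'⟩, ⟨⟨⟨d', e'⟩, hy'⟩, ⟨D', E'⟩⟩⟩ h
    have h0 := congrArg Subtype.val h
    have h1 : comb c d e D.1 E.1 = comb c' d' e' D'.1 E'.1 := h0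
    have hx1 : c + r = k := HasAntidiagonal.mem_antidiagonal.mp hx
    have hx2 : c' + r' = k := HasAntidiagonal.mem_antidiagonal.mp hx'
    have hy1 : d + e = r := HasAntidiagonal.mem_antidiagonal.mp hy
    have hy2 : d' + e' = r' := HasAntidiagonal.mem_antidiagonal.mp hy'
    have hD : ValidN d D.1 := D.2
    have hE : ValidN e E.1 := E.2
    have hD' : ValidN d' D'.1 := D'.2
    have hE' : ValidN e' E'.1 := E'.2
    obtain ⟨e1, e2, e3, e4, e5⟩ := comb_inj hD hE hD' hE' (by omega) h1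
    subst e1 e2 e3
    have e6 : r = r' := by omega
    subst e6
    have e7 : D = D' := Subtype.ext e4
    have e8 : E = E' := Subtype.ext e5
    subst e7 e8
    rfl
  · rintro ⟨Q, hQ⟩
    obtain ⟨c, d, e, hs, hcomb⟩ := exists_decomp hQ
    refine ⟨⟨⟨(c, d + e), ?_⟩, ⟨⟨(d, e), ?_⟩, ⟨⟨block Q (c + 1) d, ?_⟩,
      ⟨block Q (c + d + 1) e, ?_⟩⟩⟩⟩, ?_⟩
    · rw [HasAntidiagonal.mem_antidiagonal]; simp only; omega
    · rw [HasAntidiagonal.mem_antidiagonal]
    · exact block_valid hQ (by simp only; omega)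
    · exact block_valid hQ (by simp only; omega)
    · exact Subtype.ext hcomb

/-- The number of valid relations on `k` levels. -/
noncomputable def a (k : ℕ) : ℕ := Nat.card (VN k)

theorem a_zero : a 0 = 1 := by
  unfold a
  rw [Nat.card_eq_one_iff_unique]
  refine ⟨⟨?_⟩, ⟨⟨fun _ _ => False, ?_⟩⟩⟩
  · rintro ⟨Q, hQ⟩ ⟨Q', hQ'⟩
    apply Subtype.ext
    funext i j
    apply propext
    constructor
    · intro h; exact absurd (hQ.supp _ _ h).1 (Nat.not_lt_zero _)
    · intro h; exact absurd (hQ'.supp _ _ h).1 (Nat.not_lt_zero _)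
  · constructor <;> simp

theorem a_succ (k : ℕ) :
    a (k + 1) = ∑ x ∈ antidiagonal k, ∑ y ∈ antidiagonal x.2, a y.1 * a y.2 := by
  unfold a
  rw [← Nat.card_congr (Equiv.ofBijective _ (glue_bijective k)), Nat.card_sigma]
  rw [Finset.sum_coe_sort (antidiagonal k) (fun x => Nat.card (Σ y : antidiagonal x.2,
    VN y.1.1 × VN y.1.2))]
  apply Finset.sum_congr rfl
  intro x _
  rw [Nat.card_sigma]
  rw [Finset.sum_coe_sort (antidiagonal x.2) (fun y => Nat.card (VN y.1 × VN y.2))]
  apply Finset.sum_congr rfl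
  intro y _
  rw [Nat.card_prod]

end Pool.Agent.MP_7f2bb1_lc
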