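import Mathlib

/-!
The tableau group on words of length `k` over `ZMod p`.
-/

namespace Pool.Agent.MP_7f2bb1_lc

/-- Words of length `k` over `ZMod p`. -/
abbrev Pt (p k : ℕ) := Fin k → ZMod p

variable {p k : ℕ}

/-- The map `σ` adds to the `i`-th digit a quantity that depends on the earlier digits only. -/
def IsTab (σ : Pt p k → Pt p k) : Prop :=
  ∀ (i : Fin k) (x y : Pt p k), (∀ j < i, x j = y j) → σ x i - x i = σ y i - y i

theorem IsTab.agree {σ : Pt p k → Pt p k} (h : IsTab σ) {i : Fin k} {x y : Pt p k}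
    (hxy : ∀ j < i, x j = y j) : ∀ j < i, σ x j = σ y j := by
  intro j hj
  have h1 := h j x y (fun l hl => hxy l (hl.trans hj))
  have h2 := hxy j hj
  rw [h2] at h1
  exact sub_left_injective h1

theorem IsTab.agree_symm {σ : Pt p k → Pt p k} (h : IsTab σ) {i : Fin k} {x y : Pt p k}
    (hxy : ∀ j < i, σ x j = σ y j) : ∀ j < i, x j = y j := by
  intro j
  induction j using WellFoundedLT.induction with
  | ind j ih =>
    intro hj
    have h1 := h j x y (fun l hl => ih l hl (hl.trans hj))
    rw [hxy j hj] at h1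
    exact sub_right_injective h1

theorem IsTab.id : IsTab (fun x : Pt p k => x) := by
  intro i x y _
  simp

theorem IsTab.comp {σ τ : Pt p k → Pt p k} (hσ : IsTab σ) (hτ : IsTab τ) :
    IsTab (fun x => σ (τ x)) := by
  intro i x y hxy
  have h1 := hτ i x y hxy
  have h2 := hσ i (τ x) (τ y) (hτ.agree hxy)
  have h3 : σ (τ x) i - x i = (σ (τ x) i - τ x i) + (τ x i - x i) := by ring
  have h4 : σ (τ y) i - y i = (σ (τ y) i - τ y i) + (τ y i - y i) := by ring
  rw [h3, h4, h1, h2]

theorem IsTab.inv {σ τ : Pt p k → Pt p k} (hσ : IsTab σ) (hστ : ∀ x, σ (τ x) = x) :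
    IsTab τ := by
  intro i x y hxy
  have h0 : ∀ j < i, τ x j = τ y j := by
    apply hσ.agree_symm
    intro j hj
    rw [hστ, hστ]
    exact hxy j hj
  have h1 := hσ i (τ x) (τ y) h0
  rw [hστ, hστ] at h1
  have h2 : τ x i - x i = -(x i - τ x i) := by ring
  have h3 : τ y i - y i = -(y i - τ y i) := by ring
  rw [h2, h3, h1]

/-- The tableau group. -/
def tab (p k : ℕ) : Subgroup (Equiv.Perm (Pt p k)) where
  carrier := {σ | IsTab (fun x => σ x)}
  mul_mem' := by
    intro a b ha hb
    exact IsTab.comp (σ := fun x => a x) (τ := fun x => b x) ha hb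
  one_mem' := IsTab.id
  inv_mem' := by
    intro a ha
    exact IsTab.inv (σ := fun x => a x) ha (fun x => by simp)

theorem iter_eq {σ : Pt p k → Pt p k} (h : IsTab σ) {i : Fin k}
    (hfix : ∀ x, ∀ j < i, σ x j = x j) (x : Pt p k) (t : ℕ) :
    (∀ j < i, (σ^[t] x) j = x j) ∧ (σ^[t] x) i = x i + t * (σ x i - x i) := by
  induction t with
  | zero => simp
  | succ t ih =>
    obtain ⟨ih1, ih2⟩ := ih
    rw [Function.iterate_succ_apply']
    refine ⟨fun j hj => ?_, ?_⟩
    · rw [hfix _ j hj, ih1 j hj]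
    · have h1 := h i (σ^[t] x) x ih1
      have h2 : σ (σ^[t] x) i = (σ (σ^[t] x) i - (σ^[t] x) i) + (σ^[t] x) i := by ring
      rw [h2, h1, ih2]
      push_cast
      ring

theorem iter_pow_fix {σ : Pt p k → Pt p k} (h : IsTab σ) (i : ℕ) :
    ∀ (x : Pt p k) (j : Fin k), (j : ℕ) < i → (σ^[p ^ i] x) j = x j := by
  induction i with
  | zero => intro x j hj; omega
  | succ i ih =>
    intro x j hj
    have htab : IsTab (σ^[p ^ i]) := by
      have : ∀ n : ℕ, IsTab (σ^[n]) := by
        intro n
        induction n with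
        | zero => exact IsTab.id
        | succ n ihn =>
          rw [Function.iterate_succ]
          exact IsTab.comp (σ := σ^[n]) (τ := σ) ihn h
      exact this _
    rw [pow_succ, Function.iterate_mul]
    rcases Nat.lt_succ_iff_lt_or_eq.mp hj with hji | hji
    · have : ∀ t : ℕ, ((σ^[p ^ i])^[t] x) j = x j := by
        intro t
        induction t with
        | zero => rfl
        | succ t iht =>
          rw [Function.iterate_succ_apply', ih _ j hji, iht]
      exact this p
    · have := (iter_eq htab (i := j) (fun x l hl => ih x l (by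
        have : (l : ℕ) < j := hl
        omega)) x p).2
      rw [this]
      simp

theorem tab_pow_eq_one (σ : Equiv.Perm (Pt p k)) (h : σ ∈ tab p k) : σ ^ (p ^ k) = 1 := by
  ext x : 1
  funext j
  have h1 := iter_pow_fix (σ := fun x => σ x) h k x j j.2
  have h2 : (σ ^ (p ^ k)) x = (fun x => σ x)^[p ^ k] x := by
    rw [← Equiv.Perm.iterate_eq_pow]
  rw [h2, h1]
  rfl

theorem isPGroup_tab : IsPGroup p (tab p k) := by
  intro σ
  refine ⟨k, ?_⟩
  apply Subtype.ext
  simpa using tab_pow_eq_one σ.1 σ.2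

/-- Translation by a vector. -/
def trl (v : Pt p k) : Equiv.Perm (Pt p k) := Equiv.addRight v

theorem trl_mem (v : Pt p k) : trl v ∈ tab p k := by
  intro i x y _
  simp [trl]

/-- Conditional translation: add `w` above place `i` to the words that agree with `u` up to and
including place `i`. -/
noncomputable def cmap (u w : Pt p k) (i : Fin k) : Pt p k → Pt p k := by
  classical
  exact fun x j => x j + if i < j ∧ ∀ l ≤ i, x l = u l then w j else 0

theorem cmap_low (u w : Pt p k) (i : Fin k) (x : Pt p k) {j : Fin k} (hj : j ≤ i) :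
    cmap u w i x j = x j := by
  unfold cmap
  rw [if_neg]
  · simp
  · intro h
    exact absurd h.1 (not_lt.mpr hj)

theorem cmap_neg (u w : Pt p k) (i : Fin k) (x : Pt p k) :
    cmap u (-w) i (cmap u w i x) = x := by
  funext j
  have h0 : (∀ l ≤ i, cmap u w i x l = u l) ↔ (∀ l ≤ i, x l = u l) := by
    constructor
    · intro h l hl
      rw [← h l hl, cmap_low u w i x hl]
    · intro h l hl
      rw [cmap_low u w i x hl]
      exact h l hl
  have h1 : cmap u (-w) i (cmap u w i x) j
      = cmap u w i x j + if i < j ∧ ∀ l ≤ i, (cmap u w i x) l = u l then (-w) j else 0 := rfl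
  have h2 : cmap u w i x j = x j + if i < j ∧ ∀ l ≤ i, x l = u l then w j else 0 := rfl
  rw [h1, h2]
  simp only [h0]
  split_ifs <;> simp

/-- Conditional translation as a permutation. -/
noncomputable def ctrl (u w : Pt p k) (i : Fin k) : Equiv.Perm (Pt p k) where
  toFun := cmap u w i
  invFun := cmap u (-w) i
  left_inv := fun x => cmap_neg u w i x
  right_inv := fun x => by
    have := cmap_neg u (-w) i x
    rwa [neg_neg] at this

theorem ctrl_mem (u w : Pt p k) (i : Fin k) : ctrl u w i ∈ tab p k := by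
  intro j x y hxy
  have h1 : ∀ z : Pt p k, ctrl u w i z j - z j
      = if i < j ∧ ∀ l ≤ i, z l = u l then w j else 0 := by
    intro z
    have : ctrl u w i z j = z j + if i < j ∧ ∀ l ≤ i, z l = u l then w j else 0 := rfl
    rw [this]
    ring
  simp only
  rw [h1 x, h1 y]
  by_cases hj : i < j
  · have h2 : (∀ l ≤ i, x l = u l) ↔ (∀ l ≤ i, y l = u l) := by
      constructor
      · intro h l hl
        rw [← h l hl, hxy l (lt_of_le_of_lt hl hj)]
      · intro h l hl
        rw [← h l hl, hxy l (lt_of_le_of_lt hl hj)]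
    simp only [h2]
  · rw [if_neg (fun h => hj h.1), if_neg (fun h => hj h.1)]

/-- The words `x` and `y` first differ at place `i`. -/
def Lev (x y : Pt p k) (i : Fin k) : Prop := (∀ j < i, x j = y j) ∧ x i ≠ y i

theorem Lev.symm {x y : Pt p k} {i : Fin k} (h : Lev x y i) : Lev y x i :=
  ⟨fun j hj => (h.1 j hj).symm, h.2.symm⟩

theorem lev_comm {x y : Pt p k} {i : Fin k} : Lev x y i ↔ Lev y x i := ⟨Lev.symm, Lev.symm⟩

theorem Lev.ne {x y : Pt p k} {i : Fin k} (h : Lev x y i) : x ≠ y := fun e => h.2 (by rw [e])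

theorem not_lev_self {x : Pt p k} {i : Fin k} : ¬ Lev x x i := fun h => h.ne rfl

theorem Lev.unique {x y : Pt p k} {i j : Fin k} (h : Lev x y i) (h' : Lev x y j) : i = j := by
  rcases lt_trichotomy i j with hij | hij | hij
  · exact absurd (h'.1 i hij) h.2
  · exact hij
  · exact absurd (h.1 j hij) h'.2

theorem exists_lev {x y : Pt p k} (h : x ≠ y) : ∃ i, Lev x y i := by
  classical
  have h1 : ∃ i, x i ≠ y i := by
    by_contra hcon
    push Not at hcon
    exact h (funext hcon)
  obtain ⟨i, hi, hmin⟩ := WellFounded.has_min (wellFounded_lt (α := Fin k)) {i | x i ≠ y i} h1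
  refine ⟨i, fun j hj => ?_, hi⟩
  by_contra hne
  exact hmin j hne hj

theorem Lev.map {σ : Pt p k → Pt p k} (hσ : IsTab σ) {x y : Pt p k} {i : Fin k}
    (h : Lev x y i) : Lev (σ x) (σ y) i := by
  refine ⟨hσ.agree h.1, fun e => h.2 ?_⟩
  have h1 := hσ i x y h.1
  rw [e] at h1
  exact sub_right_injective h1

theorem lev_map_iff {σ : Equiv.Perm (Pt p k)} (hσ : σ ∈ tab p k) {x y : Pt p k} {i : Fin k} :
    Lev (σ x) (σ y) i ↔ Lev x y i := by
  constructor
  · intro h
    have h1 := Lev.map (σ := fun x => σ⁻¹ x) ((tab p k).inv_mem hσ) h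
    simpa using h1
  · intro h
    exact Lev.map (σ := fun x => σ x) hσ h

/-- Ultrametric property: two nearer pairs. -/
theorem Lev.near {x y z : Pt p k} {i j : Fin k} (hxy : Lev x y i) (hxz : Lev x z j)
    (hij : j < i) : Lev y z j := by
  refine ⟨fun l hl => ?_, ?_⟩
  · rw [← hxy.1 l (hl.trans hij), hxz.1 l hl]
  · rw [← hxy.1 j hij]
    exact hxz.2

/-- Ultrametric property: equal levels from `x`. -/
theorem Lev.ge {x y z : Pt p k} {i j : Fin k} (hxy : Lev x y i) (hxz : Lev x z i)
    (hyz : Lev y z j) : i ≤ j := by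
  by_contra hcon
  push Not at hcon
  apply hyz.2
  rw [← hxy.1 j hcon, hxz.1 j hcon]

end Pool.Agent.MP_7f2bb1_lc
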