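import Pool.Agent.MP_7f2bb1_lc.Count

/-!
The numbers of valid relations are not ultimately periodic modulo any prime.
-/

namespace Pool.Agent.MP_7f2bb1_lc

open Polynomial in
theorem no_rational {F : Type*} [Field F] (n : ℕ) : ∀ P Q : F[X], Q.natDegree = n → Q ≠ 0 →
    (1 - X) * (P - Q) * Q = X * P ^ 2 → False := by
  induction n with
  | zero =>
    intro P Q hn hQ h
    have h1 : P.eval 1 = 0 := by
      have := congrArg (Polynomial.eval 1) h
      simpa using this.symm
    obtain ⟨P₁, rfl⟩ : (X - C 1) ∣ P := Polynomial.dvd_iff_isRoot.mpr h1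
    have hX : (X - C 1 : F[X]) ≠ 0 := Polynomial.X_sub_C_ne_zero 1
    have h2 : (X - C 1) * (-(((X - C 1) * P₁ - Q) * Q)) = (X - C 1) * (X * (X - C 1) * P₁ ^ 2) := by
      have e1 : (X - C 1) * (-(((X - C 1) * P₁ - Q) * Q)) = (1 - X) * ((X - C 1) * P₁ - Q) * Q := by
        rw [C_1]; ring
      rw [e1, h]; ring
    have h3 := mul_left_cancel₀ hX h2
    have h4 : Q.eval 1 = 0 := by
      have := congrArg (Polynomial.eval 1) h3
      simpa using this
    obtain ⟨c, hc⟩ := Polynomial.natDegree_eq_zero.mp hn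
    rw [← hc] at h4 hQ
    simp at h4
    simp [h4] at hQ
  | succ n ih =>
    intro P Q hn hQ h
    have h1 : P.eval 1 = 0 := by
      have := congrArg (Polynomial.eval 1) h
      simpa using this.symm
    obtain ⟨P₁, rfl⟩ : (X - C 1) ∣ P := Polynomial.dvd_iff_isRoot.mpr h1
    have hX : (X - C 1 : F[X]) ≠ 0 := Polynomial.X_sub_C_ne_zero 1
    have h2 : (X - C 1) * (-(((X - C 1) * P₁ - Q) * Q)) = (X - C 1) * (X * (X - C 1) * P₁ ^ 2) := by
      have e1 : (X - C 1) * (-(((X - C 1) * P₁ - Q) * Q)) = (1 - X) * ((X - C 1) * P₁ - Q) * Q := by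
        rw [C_1]; ring
      rw [e1, h]; ring
    have h3 := mul_left_cancel₀ hX h2
    have h4 : Q.eval 1 = 0 := by
      have := congrArg (Polynomial.eval 1) h3
      simpa using this
    obtain ⟨Q₁, rfl⟩ : (X - C 1) ∣ Q := Polynomial.dvd_iff_isRoot.mpr h4
    have hQ₁ : Q₁ ≠ 0 := right_ne_zero_of_mul hQ
    apply ih P₁ Q₁ ?_ hQ₁ ?_
    · rw [Polynomial.natDegree_mul hX hQ₁, Polynomial.natDegree_X_sub_C] at hn
      omega
    · have h5 : (X - C 1) ^ 2 * ((1 - X) * (P₁ - Q₁) * Q₁) = (X - C 1) ^ 2 * (X * P₁ ^ 2) := by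
        have e1 : (X - C 1) ^ 2 * ((1 - X) * (P₁ - Q₁) * Q₁) =
          (1 - X) * ((X - C 1) * P₁ - (X - C 1) * Q₁) * ((X - C 1) * Q₁) := by ring
        rw [e1, h]; ring
      exact mul_left_cancel₀ (pow_ne_zero 2 hX) h5

section gf

variable (F : Type*) [Field F]

/-- The generating function over a field. -/
noncomputable def gf : PowerSeries F := PowerSeries.mk (fun k => (a k : F))

open Finset in
theorem gf_eq : gf F = 1 + PowerSeries.X * (PowerSeries.mk 1 * (gf F * gf F)) := by
  ext n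
  rcases n with _ | n
  · simp [gf, a_zero]
  · have h1 : PowerSeries.coeff (n + 1) (gf F) = (a (n + 1) : F) := by
      simp [gf]
    rw [h1, map_add, PowerSeries.coeff_succ_X_mul, PowerSeries.coeff_mul, a_succ]
    have h2 : PowerSeries.coeff (n + 1) (1 : PowerSeries F) = 0 := by
      rw [PowerSeries.coeff_one]; simp
    rw [h2, zero_add]
    push_cast
    apply Finset.sum_congr rfl
    intro x _
    rw [PowerSeries.coeff_mk, PowerSeries.coeff_mul]
    simp [gf]

theorem gf_eq' : (1 - PowerSeries.X) * (gf F - 1) = PowerSeries.X * (gf F * gf F) := by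
  have h1 : (PowerSeries.mk 1 : PowerSeries F) * (1 - PowerSeries.X) = 1 :=
    PowerSeries.mk_one_mul_one_sub_eq_one F
  have h2 : gf F - 1 = PowerSeries.X * (PowerSeries.mk 1 * (gf F * gf F)) := by
    conv_lhs => rw [gf_eq F]
    ring
  rw [h2]
  calc (1 - PowerSeries.X) * (PowerSeries.X * (PowerSeries.mk 1 * (gf F * gf F)))
      = (PowerSeries.mk 1 * (1 - PowerSeries.X)) * (PowerSeries.X * (gf F * gf F)) := by ring
    _ = PowerSeries.X * (gf F * gf F) := by rw [h1, one_mul]

theorem not_periodic_field (N q : ℕ) (hq : 1 ≤ q)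
    (h : ∀ k, N ≤ k → (a (k + q) : F) = (a k : F)) : False := by
  classical
  set Q : Polynomial F := 1 - Polynomial.X ^ q with hQdef
  set B : PowerSeries F := (1 - PowerSeries.X ^ q) * gf F with hB
  have hcoeff : ∀ n, N + q ≤ n → PowerSeries.coeff n B = 0 := by
    intro n hn
    rw [hB, sub_mul, one_mul, map_sub, PowerSeries.coeff_X_pow_mul', if_pos (by omega)]
    have h1 := h (n - q) (by omega)
    rw [Nat.sub_add_cancel (by omega)] at h1
    simp [gf, h1]
  set P : Polynomial F := PowerSeries.trunc (N + q) B with hP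
  have hPB : (P : PowerSeries F) = B := by
    ext n
    rw [Polynomial.coeff_coe, hP, PowerSeries.coeff_trunc]
    split_ifs with h1
    · rfl
    · exact (hcoeff n (by omega)).symm
  have hQ0 : Q ≠ 0 := by
    intro h0
    have h1 := congrArg (fun R => Polynomial.coeff R 0) h0
    simp only [hQdef, Polynomial.coeff_sub, Polynomial.coeff_one_zero, Polynomial.coeff_X_pow,
      Polynomial.coeff_zero] at h1
    rw [if_neg (by omega)] at h1
    simp at h1
  apply no_rational Q.natDegree P Q rfl hQ0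
  have hinj : Function.Injective (fun R : Polynomial F => (R : PowerSeries F)) :=
    Polynomial.coe_injective F
  apply hinj
  simp only [Polynomial.coe_mul, Polynomial.coe_sub, Polynomial.coe_pow, Polynomial.coe_one,
    Polynomial.coe_X, hPB, hQdef]
  rw [hB]
  have h1 := gf_eq' F
  calc (1 - PowerSeries.X) * ((1 - PowerSeries.X ^ q) * gf F - (1 - PowerSeries.X ^ q)) *
        (1 - PowerSeries.X ^ q)
      = (1 - PowerSeries.X ^ q) ^ 2 * ((1 - PowerSeries.X) * (gf F - 1)) := by ring
    _ = (1 - PowerSeries.X ^ q) ^ 2 * (PowerSeries.X * (gf F * gf F)) := by rw [h1]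
    _ = PowerSeries.X * ((1 - PowerSeries.X ^ q) * gf F) ^ 2 := by ring

end gf

theorem a_not_periodic (p : ℕ) [hp : Fact p.Prime] (N q : ℕ) (hq : 1 ≤ q) :
    ¬ ∀ k, N ≤ k → a (k + q) ≡ a k [MOD p] := by
  intro h
  apply not_periodic_field (ZMod p) N q hq
  intro k hk
  exact (ZMod.natCast_eq_natCast_iff _ _ _).mpr (h k hk)

end Pool.Agent.MP_7f2bb1_lc
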